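import Pool.Agent.Helper92.BW.GoalsA

/-!
# The upper bound for the tables of the dynamic program
-/

namespace Pool.Agent.Helper33.BW

open MeasureTheory Pool.Agent.Helper92.BW
open scoped ENNReal

noncomputable section

theorem scT_pos {n : ℕ} (par : ℕ → ℕ) (G : ℕ) (M : Fin n → ℝ) (hG : 1 ≤ G)
    (hM : ∀ v, 0 < M v) : ∀ (m : ℕ) (v : Fin n), v.val = m → 0 < scT par G M v := by
  intro m
  induction m using Nat.strong_induction_on with
  | _ m ih =>
    intro v hv
    rw [scT_eq]
    have hG' : (0 : ℝ) < G := by exact_mod_cast hG
    refine mul_pos (div_pos (hM v) hG') (Finset.prod_pos fun c _ => ?_)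
    have h1 : c.1.val < m := by
      have := c.2.1
      rw [← hv]
      exact this
    exact ih c.1.val h1 c.1 rfl

theorem ip_sub' {n : ℕ} (x y z : Fin n → ℝ) : ip x (fun j => y j - z j) = ip x y - ip x z := by
  simp only [ip, mul_sub, Finset.sum_sub_distrib]

theorem ip_div' {n : ℕ} (x y : Fin n → ℝ) (d : ℝ) : ip x (fun j => y j / d) = ip x y / d := by
  simp only [ip, Finset.sum_div, mul_div_assoc]

theorem ip_update {n : ℕ} (x u : Fin n → ℝ) (v : Fin n) (t : ℝ) :
    ip x (Function.update u v t) = ip x u + x v * (t - u v) := by
  have h : ∀ j, x j * Function.update u v t j = x j * u j +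
      (if j = v then x v * (t - u v) else 0) := by
    intro j
    by_cases hj : j = v
    · subst hj
      simp
      ring
    · simp [hj]
  simp only [ip, h, Finset.sum_add_distrib]
  simp

theorem abv_le {par : ℕ → ℕ} (h : ∀ i, i ≤ par i) {i j : ℕ} (hij : Abv par i j) : i ≤ j := by
  obtain ⟨t, rfl⟩ := hij
  induction t with
  | zero => simp
  | succ t ih =>
    rw [Function.iterate_succ_apply']
    exact ih.trans (h _)

theorem iter_mono {par : ℕ → ℕ} (h : ∀ i, i ≤ par i) (i : ℕ) {t t' : ℕ} (htt : t ≤ t') :
    par^[t] i ≤ par^[t'] i := by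
  induction t', htt using Nat.le_induction with
  | base => exact le_rfl
  | succ m _ ih =>
    rw [Function.iterate_succ_apply']
    exact ih.trans (h _)

/-- If `c` and `j` are above `i` and `c < j` then `j` is above the parent of `c`. -/
theorem abv_par {par : ℕ → ℕ} (h : ∀ i, i ≤ par i) {i c j : ℕ} (hc : Abv par i c)
    (hj : Abv par i j) (hcj : c < j) : Abv par (par c) j := by
  obtain ⟨t, rfl⟩ := hc
  obtain ⟨t', rfl⟩ := hj
  have htt : t < t' := by
    by_contra hcon
    push Not at hcon
    have := iter_mono h i hcon
    omega
  obtain ⟨d, hd⟩ := Nat.exists_eq_add_of_lt htt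
  refine ⟨d, ?_⟩
  rw [← Function.iterate_succ_apply' par t i, ← Function.iterate_add_apply]
  congr 1
  omega

theorem upc (hTlm : TlmStmt) : UpcStmt := by
  intro n k ι E _ par low a s G D ctr g o M X N hch hs hG hD hfra htab
  have hG' : (0 : ℝ) < G := by exact_mod_cast hG
  have hD' : (0 : ℝ) < D := by exact_mod_cast hD
  have hscT : ∀ v, 0 < scT par G M v := fun v => scT_pos par G M hG (fun v => (hfra.m1 v).1) _ v rfl
  obtain ⟨hp1, hp2, hp3⟩ := hch
  have key : ∀ (m : ℕ) (v : Fin n), v.val = m → ∀ e : E, 0 ≤ N v e ∧ ∀ u : Fin n → ℝ,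
    (∀ l, |ip (g v l) u - ctr e l| ≤ 1 / (2 * G)) →
    ENNReal.ofReal (scT par G M v * N v e) ≤ msg par low a s (1 + ((v.val : ℝ) + 1) / D) v u := by
    intro m
    induction m using Nat.strong_induction_on with
    | _ m ih =>
    intro v hv e
    have ihc : ∀ c : Ch par v, ∀ e : E, 0 ≤ N c.1 e ∧ ∀ u : Fin n → ℝ,
        (∀ l, |ip (g c.1 l) u - ctr e l| ≤ 1 / (2 * G)) →
        ENNReal.ofReal (scT par G M c.1 * N c.1 e) ≤
          msg par low a s (1 + ((c.1.val : ℝ) + 1) / D) c.1 u := by
      intro c e
      have h1 : c.1.val < m := by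
        have := c.2.1
        rw [← hv]
        exact this
      exact ih c.1.val h1 c.1 rfl e
    obtain ⟨ch, hch1, hch2⟩ := htab v e
    have hchnn : ∀ i < 2 * G + 1, ∀ c, 0 ≤ ch i c := by
      intro i hi c
      rcases hch1 i hi c with ⟨e', _, he'⟩ | ⟨h0, _⟩
      · rw [he']
        exact (ihc c e').1
      · rw [h0]
    have hNnn : 0 ≤ N v e := by
      rw [hch2]
      refine Finset.sum_nonneg fun i hi => ?_
      split_ifs
      · exact Finset.prod_nonneg fun c _ => hchnn i (Finset.mem_range.1 hi) c
      · exact le_rfl
    refine ⟨hNnn, ?_⟩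
    intro u hu
    have hov : 0 < o v v := by
      have h1 := (hfra.m1 v).1
      have h2 := (hfra.m1 v).2
      by_contra hcon
      push Not at hcon
      nlinarith
    have hMv := (hfra.m1 v).1
    have hMo := (hfra.m1 v).2
    classical
    -- the values of the summands
    set H : ℕ → ℝ := fun i => if ∀ r, low r = v → -s r ≤ ip (a r) (X v e i) then
      ∏ c : Ch par v, (scT par G M c.1 * ch i c) else 0 with hH
    have hHnn : ∀ i < 2 * G + 1, 0 ≤ H i := by
      intro i hi
      simp only [hH]
      split_ifs
      · exact Finset.prod_nonneg fun c _ => mul_nonneg (hscT _).le (hchnn i hi c)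
      · exact le_rfl
    have hsum : scT par G M v * N v e = ∑ i ∈ Finset.range (2 * G + 1), M v / G * H i := by
      rw [scT_eq, hch2, Finset.mul_sum]
      refine Finset.sum_congr rfl fun i _ => ?_
      simp only [hH]
      split_ifs
      · rw [Finset.prod_mul_distrib]
        ring
      · ring
    set F : ℝ → ℝ≥0∞ := fun t =>
      (∏ r ∈ Finset.univ.filter (fun r => low r = v),
        ind a s (1 + ((v.val : ℝ) + 1) / D) r (Function.update u v t)) *
      ∏ c : Ch par v, msg par low a s (1 + ((v.val : ℝ) + 1) / D) c.1 (Function.update u v t)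
      with hF
    set T : ℕ → Set ℝ := fun i => {t : ℝ | |ip (o v) (Function.update u v t) - ((i : ℝ) - G) / G| <
      1 / (2 * G)} with hT
    have hTIoo : ∀ i, T i = Set.Ioo
        (M v * (((i : ℝ) - G) / G - 1 / (2 * G) - (ip (o v) u - o v v * u v)))
        (M v * (((i : ℝ) - G) / G + 1 / (2 * G) - (ip (o v) u - o v v * u v))) := by
      intro i
      ext t
      simp only [hT, Set.mem_ofPred_eq, Set.mem_Ioo, ip_update, abs_lt]
      have e1 : t = M v * (o v v * t) := by
        rw [← mul_assoc, hMo, one_mul]
      constructor
      · rintro ⟨h1, h2⟩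
        constructor
        · rw [e1]
          exact mul_lt_mul_of_pos_left (by nlinarith) hMv
        · rw [e1]
          exact mul_lt_mul_of_pos_left (by nlinarith) hMv
      · rintro ⟨h1, h2⟩
        rw [e1] at h1 h2
        have h1' := lt_of_mul_lt_mul_left h1 hMv.le
        have h2' := lt_of_mul_lt_mul_left h2 hMv.le
        constructor <;> nlinarith
    have hTvol : ∀ i, volume (T i) = ENNReal.ofReal (M v / G) := by
      intro i
      rw [hTIoo i, Real.volume_Ioo]
      congr 1
      field_simp
      ring
    have hTmeas : ∀ i, MeasurableSet (T i) := by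
      intro i
      rw [hTIoo i]
      exact measurableSet_Ioo
    have hTdisj : ∀ i j t, t ∈ T i → t ∈ T j → i = j := by
      intro i j t hi hj
      simp only [hT, Set.mem_ofPred_eq] at hi hj
      have h3 : |((i : ℝ) - G) / G - ((j : ℝ) - G) / G| < 1 / G := by
        have e1 : (1 : ℝ) / G = 1 / (2 * G) + 1 / (2 * G) := by
          field_simp
          norm_num
        rw [e1]
        rw [abs_lt] at hi hj ⊢
        constructor <;> linarith [hi.1, hi.2, hj.1, hj.2]
      have h4 : ((i : ℝ) - G) / G - ((j : ℝ) - G) / G = ((i : ℝ) - j) / G := by ring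
      rw [h4, abs_div, abs_of_pos hG', div_lt_div_iff_of_pos_right hG'] at h3
      have h5 : |((i : ℤ) : ℝ) - ((j : ℤ) : ℝ)| < 1 := by simpa using h3
      have h6 : |(i : ℤ) - (j : ℤ)| < 1 := by exact_mod_cast h5
      have h7 := Int.abs_lt_one_iff.1 h6
      omega
    -- the main estimate
    have hmain : ∀ i < 2 * G + 1, ∀ t ∈ T i, ENNReal.ofReal (H i) ≤ F t := by
      intro i hi t ht
      by_cases hrow : ∀ r, low r = v → -s r ≤ ip (a r) (X v e i)
      swap
      · simp only [hH, if_neg hrow, ENNReal.ofReal_zero]
        exact zero_le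
      by_cases hne : ∃ c, ch i c = 0
      · obtain ⟨c, hc⟩ := hne
        simp only [hH, if_pos hrow]
        rw [Finset.prod_eq_zero (Finset.mem_univ c) (by rw [hc, mul_zero]), ENNReal.ofReal_zero]
        exact zero_le
      push Not at hne
      obtain ⟨hx1, hx2⟩ := hfra.x1 v e i hi ⟨u, hu⟩
      set u' := Function.update u v t with hu'
      have hgv : ∀ l, g v l v = 0 := by
        intro l
        by_contra hcon
        exact lt_irrefl _ (hfra.g1 v l v hcon)
      have hw1 : ∀ l, |ip (g v l) (fun j => u' j - X v e i j)| ≤ 1 / (2 * G) := by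
        intro l
        rw [ip_sub', hu', ip_update, hgv, hx1, zero_mul, add_zero]
        exact hu l
      have hw2 : |ip (o v) (fun j => u' j - X v e i j)| ≤ 1 / (2 * G) := by
        rw [ip_sub', hx2]
        exact le_of_lt ht
      obtain ⟨W, hW1, hW2, hW3⟩ := hfra.g6 v _ hw1 hw2
      set w0 : Fin n → ℝ := fun j => (u' j - X v e i j) - W j / D with hw0
      have hk1 : ∀ l, ip (g v l) w0 = 0 := by
        intro l
        have h1 := hW2 l
        rw [hw0, ip_sub' (g v l) (fun j => u' j - X v e i j) (fun j => W j / D), ip_div', ← h1]
        field_simp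
        ring
      have hk2 : ip (o v) w0 = 0 := by
        rw [hw0, ip_sub' (o v) (fun j => u' j - X v e i j) (fun j => W j / D), ip_div', ← hW3]
        field_simp
        ring
      have hk3 : w0 v = 0 := hfra.g3 v w0 hk1 hk2
      have hk4 := hfra.g2 v w0 hk1
      have hWr : ∀ r, -(1 * s r) ≤ ip (a r) W := hW1
      -- the rows
      have hrows : (∏ r ∈ Finset.univ.filter (fun r => low r = v),
          ind a s (1 + ((v.val : ℝ) + 1) / D) r u') = 1 := by
        refine Finset.prod_eq_one fun r hr => ?_
        have hr' : low r = v := (Finset.mem_filter.1 hr).2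
        have hz : ip (a r) w0 = 0 := by
          have h1 := hk4 r ⟨0, by rw [hr']; rfl⟩
          refine Eq.trans ?_ h1
          refine Finset.sum_congr rfl fun j _ => ?_
          by_cases haj : a r j = 0
          · simp [haj]
          · have h2 := abv_le hp1 (hp3 r j haj)
            rw [hr'] at h2
            rcases h2.lt_or_eq with h3 | h3
            · have h4 : v < j := h3
              rw [if_pos h4]
            · have h4 : v = j := Fin.ext h3
              rw [← h4, hk3]
              simp
        have hz2 : ip (a r) u' = ip (a r) (X v e i) + ip (a r) W / D := by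
          have h1 : ip (a r) w0 = ip (a r) u' - ip (a r) (X v e i) - ip (a r) W / D := by
            rw [hw0, ip_sub' (a r) (fun j => u' j - X v e i j) (fun j => W j / D), ip_div', ip_sub']
          linarith
        have hgoal : -((1 + ((v.val : ℝ) + 1) / D) * s r) ≤ ip (a r) u' := by
          rw [hz2]
          have h1 := hrow r hr'
          have h2 := hWr r
          have h3 : -(s r) / D ≤ ip (a r) W / D := by
            apply div_le_div_of_nonneg_right _ hD'.le
            linarith
          have h4 : (0 : ℝ) ≤ (v.val : ℝ) * s r / D :=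
            div_nonneg (mul_nonneg (Nat.cast_nonneg _) (hs r)) hD'.le
          have h5 : (1 + ((v.val : ℝ) + 1) / D) * s r = s r + s r / D + (v.val : ℝ) * s r / D := by
            ring
          rw [h5]
          have h6 : -(s r) / D = -(s r / D) := by ring
          rw [h6] at h3
          linarith
        simp only [ind, if_pos hgoal]
      -- the children
      have hchild : ∀ c : Ch par v, ENNReal.ofReal (scT par G M c.1 * ch i c) ≤
          msg par low a s (1 + ((v.val : ℝ) + 1) / D) c.1 u' := by
        intro c
        rcases hch1 i hi c with ⟨e', he1, he2⟩ | ⟨h0, _⟩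
        swap
        · exact absurd h0 (hne c)
        rw [he2]
        have h1 := (ihc c e').2 (X v e i) he1
        have hcv : c.1.val < v.val := c.2.1
        have h2 : msg par low a s (1 + ((c.1.val : ℝ) + 1) / D) c.1 (X v e i) ≤
            msg par low a s (1 + (v.val : ℝ) / D) c.1 (X v e i) := by
          refine (hTlm n ι par low a s ⟨hp1, hp2, hp3⟩).2 hs _ _ c.1 _ ?_
          have h3 : (c.1.val : ℝ) + 1 ≤ (v.val : ℝ) := by exact_mod_cast hcv
          have h4 : ((c.1.val : ℝ) + 1) / D ≤ (v.val : ℝ) / D :=
            div_le_div_of_nonneg_right h3 hD'.le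
          linarith
        have h3 : msg par low a s (1 + (v.val : ℝ) / D) c.1 (X v e i) ≤
            msg par low a s (1 + (v.val : ℝ) / D + 1 / D) c.1 u' := by
          refine (hTlm n ι par low a s ⟨hp1, hp2, hp3⟩).1 _ _ c.1 _ _ (fun j => W j / D) ?_ ?_
          · intro r
            rw [ip_div']
            have h4 := hWr r
            have h5 : -(s r) / D ≤ ip (a r) W / D := by
              apply div_le_div_of_nonneg_right _ hD'.le
              linarith
            have h6 : -(1 / (D : ℝ) * s r) = -(s r) / D := by ring
            rw [h6]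
            exact h5
          · intro r hr
            have hrv : Abv par (low r) v := by
              obtain ⟨t', ht'⟩ := hr
              refine ⟨t' + 1, ?_⟩
              rw [Function.iterate_succ_apply', ht']
              exact c.2.2
            refine Eq.trans ?_ (hk4 r hrv)
            refine Finset.sum_congr rfl fun j _ => ?_
            by_cases haj : a r j = 0
            · simp [haj]
            · by_cases hcj : c.1 < j
              · have h5 : Abv par (par c.1) j := abv_par hp1 hr (hp3 r j haj) hcj
                rw [c.2.2] at h5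
                have h6 := abv_le hp1 h5
                rw [if_pos hcj]
                rcases h6.lt_or_eq with h7 | h7
                · have h8 : v < j := h7
                  rw [if_pos h8]
                · have h8 : v = j := Fin.ext h7
                  have h9 : w0 j = 0 := by rw [← h8]; exact hk3
                  simp only [hw0] at h9
                  rw [h9]
                  simp [← h8]
              · have h5 : ¬ v < j := by
                  intro h6
                  exact hcj (lt_trans c.2.1 h6)
                rw [if_neg hcj, if_neg h5]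
        have h4 : 1 + (v.val : ℝ) / D + 1 / D = 1 + ((v.val : ℝ) + 1) / D := by ring
        rw [h4] at h3
        exact h1.trans (h2.trans h3)
      simp only [hH, if_pos hrow, hF]
      rw [hrows, one_mul, ENNReal.ofReal_prod_of_nonneg
        (fun c _ => mul_nonneg (hscT _).le (hchnn i hi c))]
      exact Finset.prod_le_prod' fun c _ => hchild c
    rw [msg_eq, hsum]
    rw [ENNReal.ofReal_sum_of_nonneg (fun i hi => mul_nonneg (div_pos hMv hG').le
      (hHnn i (Finset.mem_range.1 hi)))]
    have hint : ∀ i ∈ Finset.range (2 * G + 1), ENNReal.ofReal (M v / G * H i) =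
        ∫⁻ t : ℝ, (T i).indicator (fun _ => ENNReal.ofReal (H i)) t := by
      intro i _
      rw [lintegral_indicator_const (hTmeas i), hTvol i, ENNReal.ofReal_mul (div_pos hMv hG').le,
        mul_comm]
    rw [Finset.sum_congr rfl hint, ← lintegral_finsetSum]
    swap
    · intro i _
      exact measurable_const.indicator (hTmeas i)
    refine lintegral_mono fun t => ?_
    change _ ≤ F t
    by_cases hex : ∃ i ∈ Finset.range (2 * G + 1), t ∈ T i
    · obtain ⟨i, hi, hit⟩ := hex
      rw [Finset.sum_eq_single i]
      · rw [Set.indicator_of_mem hit]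
        exact hmain i (Finset.mem_range.1 hi) t hit
      · intro j _ hji
        refine Set.indicator_of_notMem (fun hjt => hji (hTdisj j i t hjt hit)) _
      · intro hni
        exact absurd hi hni
    · push Not at hex
      rw [Finset.sum_eq_zero]
      · exact zero_le
      · intro j hj
        exact Set.indicator_of_notMem (hex j hj) _
  intro v e
  exact key v.val v rfl e

end

end Pool.Agent.Helper33.BW
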